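import Pool.Agent.Lib.CMT.J.Iface
import Pool.Agent.Lib.CMT.B.Br
import Pool.Agent.Lib.CMT.D.Cpt

/-!
# PROJECT CMT, part J5 : the embeddings and automorphisms of `K = F(δ)` (helper36)
-/

open scoped ComplexConjugate

noncomputable section

namespace CMT
namespace J5

variable {F : Type} [Field F] [NumberField F]

/-- `K` is a field: `-Δ` is not a square. -/
theorem factK (D : Dat F) : Fact (∀ r : F, r ^ 2 ≠ -D.del + 0 * r) := by
  refine ⟨fun r h => ?_⟩
  have h1 := congrArg D.t0 h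
  rw [map_pow, map_add, map_mul, map_neg, map_zero, zero_mul, add_zero] at h1
  have h2 := D.del_pos D.t0
  have h3 := sq_nonneg (D.t0 r)
  linarith

/-- Embeddings of `K` are injective. -/
theorem emb_inj (D : Dat F) (τ : KD D →+* ℂ) : Function.Injective τ := by
  have := factK D
  exact RingHom.injective τ

theorem ev_injective (D : Dat F) (t : F →+* ℝ) {x y : KD D} (h : ev D t x = ev D t y) : x = y :=
  emb_inj D _ h

theorem cjt_apply (D : Dat F) (τ : KD D →+* ℂ) (x : KD D) : J.cjt D τ x = conj (τ x) := rfl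

/-- Two ring homomorphisms on `K` which agree on `F` and on `δ` are equal. -/
theorem hom_ext (D : Dat F) {τ τ' : KD D →+* ℂ}
    (h1 : ∀ x : F, τ (algebraMap F (KD D) x) = τ' (algebraMap F (KD D) x))
    (h2 : τ (⟨0, 1⟩ : KD D) = τ' ⟨0, 1⟩) : τ = τ' := by
  ext x
  have hx : x = algebraMap F (KD D) x.re + algebraMap F (KD D) x.im * ⟨0, 1⟩ := by
    apply QuadraticAlgebra.ext
    · simp
    · simp
  rw [hx, map_add, map_add, map_mul, map_mul, h1, h1, h2]

theorem delta_sq (D : Dat F) : (⟨0, 1⟩ : KD D) * ⟨0, 1⟩ = algebraMap F (KD D) (-D.del) := by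
  apply QuadraticAlgebra.ext
  · simp
  · simp

theorem ev_delta (D : Dat F) (t : F →+* ℝ) :
    ev D t (⟨0, 1⟩ : KD D) = Complex.I * ((Real.sqrt (t D.del) : ℝ) : ℂ) := by
  show ((t 0 : ℝ) : ℂ) + Complex.I * ((Real.sqrt (t D.del) : ℝ) : ℂ) * ((t 1 : ℝ) : ℂ) = _
  rw [map_zero, map_one, Complex.ofReal_zero, Complex.ofReal_one, mul_one, zero_add]

/-- Every embedding of `K` is `ev t` or `conj ev t`. -/
theorem emb_cases [NumberField.IsTotallyReal F] (D : Dat F) (τ : KD D →+* ℂ) :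
    ∃ t : F →+* ℝ, τ = ev D t ∨ τ = J.cjt D (ev D t) := by
  obtain ⟨t, ht⟩ := CMT.Cpt.exists_real (τ.comp (algebraMap F (KD D)))
  have ht' : ∀ x : F, τ (algebraMap F (KD D) x) = ((t x : ℝ) : ℂ) := ht
  refine ⟨t, ?_⟩
  have h1 : τ (⟨0, 1⟩ : KD D) * τ ⟨0, 1⟩ = -((t D.del : ℝ) : ℂ) := by
    rw [← map_mul, delta_sq, ht', map_neg, Complex.ofReal_neg]
  have h2 : (Complex.I * ((Real.sqrt (t D.del) : ℝ) : ℂ)) *
      (Complex.I * ((Real.sqrt (t D.del) : ℝ) : ℂ)) = -((t D.del : ℝ) : ℂ) := by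
    have h3 : ((Real.sqrt (t D.del) : ℝ) : ℂ) * ((Real.sqrt (t D.del) : ℝ) : ℂ) =
        ((t D.del : ℝ) : ℂ) := by
      rw [← Complex.ofReal_mul, Real.mul_self_sqrt (D.del_pos t).le]
    have h4 : Complex.I * Complex.I = -1 := Complex.I_mul_I
    linear_combination (((Real.sqrt (t D.del) : ℝ) : ℂ) * ((Real.sqrt (t D.del) : ℝ) : ℂ)) * h4 - h3
  have h5 : (τ (⟨0, 1⟩ : KD D) - Complex.I * ((Real.sqrt (t D.del) : ℝ) : ℂ)) *
      (τ (⟨0, 1⟩ : KD D) + Complex.I * ((Real.sqrt (t D.del) : ℝ) : ℂ)) = 0 := by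
    linear_combination h1 - h2
  rcases mul_eq_zero.1 h5 with h6 | h6
  · left
    refine hom_ext D (fun x => ?_) ?_
    · rw [ht', CMT.B.ev_algebraMap]
    · rw [ev_delta]; exact sub_eq_zero.1 h6
  · right
    refine hom_ext D (fun x => ?_) ?_
    · rw [ht', cjt_apply, CMT.B.ev_algebraMap, Complex.conj_ofReal]
    · rw [cjt_apply, ev_delta, map_mul, Complex.conj_I, Complex.conj_ofReal]
      linear_combination h6

/-- Complex conjugation commutes with all embeddings. -/
theorem emb_cj [NumberField.IsTotallyReal F] (D : Dat F) (τ : KD D →+* ℂ) (x : KD D) :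
    τ (cj D x) = conj (τ x) := by
  obtain ⟨t, rfl | rfl⟩ := emb_cases D τ
  · exact CMT.B.ev_cj D t x
  · rw [cjt_apply, cjt_apply, CMT.B.ev_cj]

/-- Complex conjugation is central. -/
theorem aut_cj [NumberField.IsTotallyReal F] (D : Dat F) (s : KD D ≃+* KD D) (x : KD D) :
    s (cj D x) = cj D (s x) := by
  apply ev_injective D D.t0
  have h1 := emb_cj D ((ev D D.t0).comp (s : KD D →+* KD D)) x
  have h2 := emb_cj D (ev D D.t0) (s x)
  rw [h2]
  exact h1

theorem cj_cj (D : Dat F) (x : KD D) : cj D (cj D x) = x := by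
  apply QuadraticAlgebra.ext
  · rfl
  · show - -x.im = x.im
    rw [neg_neg]

/-- Complex conjugation as an automorphism. -/
def cjE (D : Dat F) : KD D ≃+* KD D :=
  RingEquiv.ofRingHom (cjh D) (cjh D) (RingHom.ext fun x => cj_cj D x)
    (RingHom.ext fun x => cj_cj D x)

theorem cjE_apply (D : Dat F) (x : KD D) : cjE D x = cj D x := rfl

/-- The place of an embedding is unique. -/
theorem ev_ne_cjt (D : Dat F) (t t' : F →+* ℝ) : ev D t ≠ J.cjt D (ev D t') := by
  intro h
  have h1 : t = t' := by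
    ext x
    have h2 := RingHom.congr_fun h (algebraMap F (KD D) x)
    rw [cjt_apply, CMT.B.ev_algebraMap, CMT.B.ev_algebraMap, Complex.conj_ofReal] at h2
    exact_mod_cast h2
  subst h1
  have h3 := RingHom.congr_fun h (⟨0, 1⟩ : KD D)
  rw [cjt_apply, ev_delta, map_mul, Complex.conj_I, Complex.conj_ofReal] at h3
  have h4 := congrArg Complex.im h3
  simp at h4
  have h5 := Real.sqrt_pos.2 (D.del_pos t)
  linarith

theorem ev_place (D : Dat F) {t t' : F →+* ℝ} (h : ev D t = ev D t') : t = t' := by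
  ext x
  have h2 := RingHom.congr_fun h (algebraMap F (KD D) x)
  rw [CMT.B.ev_algebraMap, CMT.B.ev_algebraMap] at h2
  exact_mod_cast h2

end J5
end CMT
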