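import Pool.Agent.Lib.CMT.J5.Emb

/-!
# PROJECT CMT, part J5 : expansion of a homomorphism `G → ℂ` over `K` (helper36)

`G` finitely generated, `p : G → ℂ` a homomorphism. The `K`-span of the values is finite
dimensional (`K` acts through `ev t0`), so `p = ∑ κ_j τ₀(λ_j)` with homomorphisms
`λ_j : G → R = O_F + O_F δ`, and the coordinates are restrictions of `K`-linear maps
`pr_j : ℂ → K`.
-/

open scoped ComplexConjugate

noncomputable section

namespace CMT
namespace J5

variable {F : Type} [Field F] [NumberField F]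

/-- Integral multiples of a finite set of elements of `K`. -/
theorem exists_mul_mem_RR (D : Dat F) (S : Finset (KD D)) :
    ∃ N : ℕ, 0 < N ∧ ∀ x ∈ S, (N : KD D) * x ∈ RR D := by
  classical
  obtain ⟨N, hN, H⟩ := CMT.Cpt.exists_mul_integral
    ((S.image fun x => x.re) ∪ S.image fun x => x.im)
  refine ⟨N, hN, fun x hx => ?_⟩
  have h1 : IsIntegral ℤ ((N : F) * x.re) := H _ (by
    rw [Finset.mem_union, Finset.mem_image]; exact Or.inl ⟨x, hx, rfl⟩)
  have h2 : IsIntegral ℤ ((N : F) * x.im) := H _ (by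
    rw [Finset.mem_union, Finset.mem_image, Finset.mem_image]
    exact Or.inr ⟨x, hx, rfl⟩)
  have e1 : ((N : KD D) * x).re = (N : F) * x.re := by simp
  have e2 : ((N : KD D) * x).im = (N : F) * x.im := by simp
  exact ⟨by rw [e1]; exact h1, by rw [e2]; exact h2⟩

theorem hom_one {G A : Type*} [Group G] [AddGroup A] {p : G → A}
    (hp : ∀ g h, p (g * h) = p g + p h) : p 1 = 0 := by
  have h := hp 1 1
  rw [mul_one] at h
  exact left_eq_add.1 h

theorem hom_inv {G A : Type*} [Group G] [AddGroup A] {p : G → A}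
    (hp : ∀ g h, p (g * h) = p g + p h) (g : G) : p g⁻¹ = -p g := by
  have h := hp g⁻¹ g
  rw [inv_mul_cancel, hom_one hp] at h
  exact eq_neg_of_add_eq_zero_left h.symm

theorem expand (D : Dat F) {G : Type*} [Group G] (hG : Group.FG G) (p : G → ℂ)
    (hp : ∀ g h, p (g * h) = p g + p h) :
    ∃ (r : ℕ) (κ : Fin r → ℂ) (lam : Fin r → G → KD D) (pr : Fin r → ℂ →+ KD D),
      (∀ j g, lam j g ∈ RR D) ∧ (∀ j g h, lam j (g * h) = lam j g + lam j h) ∧
      (∀ g, p g = ∑ j, κ j * ev D D.t0 (lam j g)) ∧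
      (∀ j x c, pr j (ev D D.t0 x * c) = x * pr j c) ∧
      (∀ j g, pr j (p g) = lam j g) := by
  classical
  have := factK D
  let _ : Module (KD D) ℂ := Module.compHom ℂ (ev D D.t0)
  have hsm : ∀ (x : KD D) (c : ℂ), x • c = ev D D.t0 x * c := fun _ _ => rfl
  obtain ⟨S, hS⟩ := hG.out
  let W : Submodule (KD D) ℂ := Submodule.span (KD D) (p '' (S : Set G))
  have : FiniteDimensional (KD D) W :=
    FiniteDimensional.span_of_finite (KD D) (S.finite_toSet.image p)
  have hpW : ∀ g : G, p g ∈ W := by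
    intro g
    have hg : g ∈ Subgroup.closure (S : Set G) := by rw [hS]; exact Subgroup.mem_top g
    induction hg using Subgroup.closure_induction with
    | mem x hx => exact Submodule.subset_span ⟨x, hx, rfl⟩
    | one => rw [hom_one hp]; exact W.zero_mem
    | mul x y _ _ hx hy => rw [hp]; exact W.add_mem hx hy
    | inv x _ hx => rw [hom_inv hp]; exact W.neg_mem hx
  obtain ⟨π, hπ⟩ := LinearMap.exists_leftInverse_of_injective W.subtype (by
    rw [LinearMap.ker_eq_bot]; exact W.injective_subtype)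
  have hπ' : ∀ w : W, π (w : ℂ) = w := fun w => LinearMap.congr_fun hπ w
  let b := Module.finBasis (KD D) W
  let pr0 : Fin (Module.finrank (KD D) W) → ℂ →ₗ[KD D] KD D := fun j => (b.coord j).comp π
  obtain ⟨N, hN, H⟩ := exists_mul_mem_RR D
    ((Finset.univ ×ˢ S).image fun q : Fin (Module.finrank (KD D) W) × G => pr0 q.1 (p q.2))
  have hNC : ((N : ℕ) : ℂ) ≠ 0 := by exact_mod_cast hN.ne'
  have hexp : ∀ g : G, p g = ∑ j, ev D D.t0 (pr0 j (p g)) * (b j : ℂ) := by
    intro g
    have h1 := b.sum_repr (⟨p g, hpW g⟩ : W)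
    have h2 := congrArg (fun w : W => (w : ℂ)) h1
    simp only [Submodule.coe_sum, Submodule.coe_smul] at h2
    conv_lhs => rw [← h2]
    refine Finset.sum_congr rfl fun j _ => ?_
    rw [hsm]
    congr 2
    have h4 : π (p g) = ⟨p g, hpW g⟩ := hπ' ⟨p g, hpW g⟩
    show _ = (b.coord j) (π (p g))
    rw [h4]
    rfl
  refine ⟨Module.finrank (KD D) W, fun j => (b j : ℂ) / N, fun j g => (N : KD D) * pr0 j (p g),
    fun j => (AddMonoidHom.mulLeft (N : KD D)).comp (pr0 j).toAddMonoidHom, ?_, ?_, ?_, ?_, ?_⟩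
  · intro j g
    have hg : g ∈ Subgroup.closure (S : Set G) := by rw [hS]; exact Subgroup.mem_top g
    induction hg using Subgroup.closure_induction with
    | mem x hx =>
      refine H _ (Finset.mem_image.2 ⟨(j, x), Finset.mem_product.2 ⟨Finset.mem_univ _, hx⟩, rfl⟩)
    | one => simp only [hom_one hp, map_zero, mul_zero]; exact (RR D).zero_mem
    | mul x y _ _ hx hy =>
      simp only [hp, map_add, mul_add]; exact (RR D).add_mem hx hy
    | inv x _ hx => simp only [hom_inv hp, map_neg, mul_neg]; exact (RR D).neg_mem hx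
  · intro j g h
    simp only [hp, map_add, mul_add]
  · intro g
    conv_lhs => rw [hexp g]
    refine Finset.sum_congr rfl fun j _ => ?_
    rw [map_mul, map_natCast]
    field_simp
  · intro j x c
    show (N : KD D) * pr0 j (ev D D.t0 x * c) = x * ((N : KD D) * pr0 j c)
    rw [← hsm, map_smul, smul_eq_mul]
    ring
  · intro j g
    rfl

end J5
end CMT
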