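import Pool.Agent.Lib.CMT.J.Spec
import Pool.Agent.Lib.CMT.J5.Emb
import Pool.Agent.Lib.CMT.J.Fg
import Pool.Agent.Lib.CMT.G.Asm
import Pool.Agent.Lib.Osgood

/-!
# PROJECT CMT, part J5 : periods of primitives, linearity of the integral (helper36)
-/

open scoped BigOperators ComplexConjugate
open MeasureTheory

noncomputable section

namespace CMT
namespace J5

variable {F : Type} [Field F] [NumberField F]

/-- The linear form of a pair of coefficients. -/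
def lf (p : ℂ × ℂ) : (ℂ × ℂ) →L[ℂ] ℂ :=
  p.1 • ContinuousLinearMap.fst ℂ ℂ ℂ + p.2 • ContinuousLinearMap.snd ℂ ℂ ℂ

theorem lf_apply (p v : ℂ × ℂ) : lf p v = p.1 * v.1 + p.2 * v.2 := rfl

theorem lf_comp (D : Dat F) {g : SG D} (hg : IsIso D g) {z : ℂ × ℂ} (hz : z ∈ Ball D)
    (p : ℂ × ℂ) : (lf p).comp (CMT.B.dact (mt D D.t0 g) z) = lf (pull1 D g z p) := by
  have hj := CMT.B.num_two_ne_zero D hg hz
  rw [CMT.B.pull1_eq D g z hj]
  refine ContinuousLinearMap.ext fun v => ?_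
  show lf p (CMT.B.dact (mt D D.t0 g) z v) = _
  rw [lf_apply, lf_apply]
  simp only [CMT.B.dact, ContinuousLinearMap.prod_apply, ContinuousLinearMap.add_apply,
    ContinuousLinearMap.smul_apply, ContinuousLinearMap.coe_fst', ContinuousLinearMap.coe_snd',
    smul_eq_mul]
  ring

/-- A function with derivative zero on the ball is constant. -/
theorem const_of_fderiv (D : Dat F) {f : ℂ × ℂ → ℂ}
    (hf : ∀ z ∈ Ball D, HasFDerivAt f (0 : (ℂ × ℂ) →L[ℂ] ℂ) z) {z w : ℂ × ℂ} (hz : z ∈ Ball D)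
    (hw : w ∈ Ball D) : f z = f w := by
  refine (CMT.D.isOpen_Ball D).is_const_of_fderiv_eq_zero (J.convex_Ball D).isPreconnected
    (𝕜 := ℂ) ?_ ?_ hz hw
  · exact fun z hz => (hf z hz).differentiableAt.differentiableWithinAt
  · exact fun z hz => (hf z hz).fderiv

/-- Periods of a primitive of an invariant form. -/
theorem exists_per (D : Dat F) {g : SG D} (hg : IsIso D g) {P : ℂ × ℂ → ℂ} {ω : ℂ × ℂ → ℂ × ℂ}
    (hP : ∀ z ∈ Ball D, HasFDerivAt P (lf (ω z)) z)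
    (hinv : ∀ z ∈ Ball D, pull1 D g z (ω (act D g z)) = ω z) :
    ∃ c, ∀ z ∈ Ball D, P (act D g z) = P z + c := by
  refine ⟨P (act D g 0) - P 0, fun z hz => ?_⟩
  have h1 : ∀ z ∈ Ball D, HasFDerivAt (fun z => P (act D g z) - P z) (0 : (ℂ × ℂ) →L[ℂ] ℂ) z := by
    intro z hz
    have h2 := (hP _ (CMT.B.act_mem_Ball D hg hz)).comp z (CMT.B.hasFDerivAt_act_Ball D hg hz)
    rw [lf_comp D hg hz, hinv z hz] at h2
    have h3 := h2.sub (hP z hz)
    rw [sub_self] at h3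
    exact h3
  have h4 := const_of_fderiv D h1 hz (J.zero_mem_Ball D)
  have h5 : P (act D g z) - P z = P (act D g 0) - P 0 := h4
  rw [← h5]
  ring

theorem fderiv_eq_lf (w : ℂ × ℂ → ℂ) (z : ℂ × ℂ) : fderiv ℂ w z = lf (J.grad w z) := by
  refine ContinuousLinearMap.ext fun v => ?_
  rw [lf_apply]
  have h1 : v = v.1 • ((1, 0) : ℂ × ℂ) + v.2 • ((0, 1) : ℂ × ℂ) := by
    refine Prod.ext ?_ ?_
    · simp
    · simp
  conv_lhs => rw [h1, map_add, map_smul, map_smul, smul_eq_mul, smul_eq_mul]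
  show _ = fderiv ℂ w z (1, 0) * v.1 + fderiv ℂ w z (0, 1) * v.2
  ring

theorem lf_inj {p q : ℂ × ℂ} (h : lf p = lf q) : p = q := by
  have h1 := congrArg (fun f : (ℂ × ℂ) →L[ℂ] ℂ => f (1, 0)) h
  have h2 := congrArg (fun f : (ℂ × ℂ) →L[ℂ] ℂ => f (0, 1)) h
  simp only [lf_apply, mul_one, mul_zero, add_zero, zero_add] at h1 h2
  exact Prod.ext h1 h2

theorem hasFDerivAt_grad (D : Dat F) {w : ℂ × ℂ → ℂ} (hw : DifferentiableOn ℂ w (Ball D))
    {z : ℂ × ℂ} (hz : z ∈ Ball D) : HasFDerivAt w (lf (J.grad w z)) z := by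
  rw [← fderiv_eq_lf]
  exact (hw.differentiableAt ((CMT.D.isOpen_Ball D).mem_nhds hz)).hasFDerivAt

/-- The gradient of a holomorphic function is continuous. -/
theorem continuousOn_grad (D : Dat F) {w : ℂ × ℂ → ℂ} (hw : DifferentiableOn ℂ w (Ball D)) :
    ContinuousOn (J.grad w) (Ball D) := by
  have h3 : ContinuousOn (fderiv ℂ w) (Ball D) :=
    Pool.Agent.Lib.Osgood.continuousOn_fderiv (CMT.D.isOpen_Ball D) hw
  exact (h3.clm_apply continuousOn_const).prodMk (h3.clm_apply continuousOn_const)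

/-! ### linearity of the integral -/

/-- The integral of four forms. -/
def I4 (χ : ℂ × ℂ → ℝ) (A B C E : ℂ × ℂ → ℂ × ℂ) : ℂ :=
  ∫ z, ((χ z : ℝ) : ℂ) * (wedge (A z) (B z) * conj (wedge (C z) (E z)))

theorem wedge_anti (p q : ℂ × ℂ) : wedge p q = -wedge q p := by
  unfold wedge; ring

theorem I4_swap (χ : ℂ × ℂ → ℝ) (A B C E : ℂ × ℂ → ℂ × ℂ) : I4 χ A B C E = -I4 χ B A C E := by
  unfold I4
  rw [← integral_neg]
  refine integral_congr_ae (Filter.Eventually.of_forall fun z => ?_)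
  simp only
  rw [wedge_anti (A z) (B z)]
  ring

theorem I4_conj (χ : ℂ × ℂ → ℝ) (A B C E : ℂ × ℂ → ℂ × ℂ) :
    I4 χ A B C E = conj (I4 χ C E A B) := by
  unfold I4
  rw [← integral_conj]
  refine integral_congr_ae (Filter.Eventually.of_forall fun z => ?_)
  simp only [map_mul, Complex.conj_ofReal, Complex.conj_conj]
  ring

theorem wedge_sum {r : ℕ} (κ : Fin r → ℂ) (q : Fin r → ℂ × ℂ) (p : ℂ × ℂ) :
    wedge (∑ j, κ j • q j) p = ∑ j, κ j * wedge (q j) p := by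
  unfold wedge
  rw [Prod.fst_sum, Prod.snd_sum, Finset.sum_mul, Finset.sum_mul, ← Finset.sum_sub_distrib]
  refine Finset.sum_congr rfl fun j _ => ?_
  rw [Prod.smul_fst, Prod.smul_snd, smul_eq_mul, smul_eq_mul]
  ring

/-- Expansion of the first form. -/
theorem I4_sum (D : Dat F) {G : Subgroup (SG D)} {χ : ℂ × ℂ → ℝ} (hχ : IsWeight D G χ) {r : ℕ}
    (κ : Fin r → ℂ) (q : Fin r → ℂ × ℂ → ℂ × ℂ) {A B C E : ℂ × ℂ → ℂ × ℂ}
    (hq : ∀ j, ContinuousOn (q j) (Ball D)) (hB : ContinuousOn B (Ball D))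
    (hC : ContinuousOn C (Ball D)) (hE : ContinuousOn E (Ball D))
    (hA : ∀ z ∈ Ball D, A z = ∑ j, κ j • q j z) : I4 χ A B C E = ∑ j, κ j * I4 χ (q j) B C E := by
  have h1 : I4 χ A B C E = ∫ z, ((χ z : ℝ) : ℂ) *
      (∑ j, κ j * (wedge (q j z) (B z) * conj (wedge (C z) (E z)))) := by
    refine Pool.Agent.CMT.G.int_congr D hχ fun z hz => ?_
    rw [hA z hz, wedge_sum, Finset.sum_mul]
    exact Finset.sum_congr rfl fun j _ => mul_assoc _ _ _
  rw [h1]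
  have h2 : ∀ j, Integrable fun z => ((χ z : ℝ) : ℂ) *
      (wedge (q j z) (B z) * conj (wedge (C z) (E z))) := by
    intro j
    refine Pool.Agent.CMT.G.integrable_wt D hχ ?_
    exact (Pool.Agent.CMT.G.continuousOn_wedge (hq j) hB).mul
      (Complex.continuous_conj.comp_continuousOn (Pool.Agent.CMT.G.continuousOn_wedge hC hE))
  have h3 : (fun z => ((χ z : ℝ) : ℂ) *
      (∑ j, κ j * (wedge (q j z) (B z) * conj (wedge (C z) (E z))))) =
      fun z => ∑ j, κ j * (((χ z : ℝ) : ℂ) *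
        (wedge (q j z) (B z) * conj (wedge (C z) (E z)))) := by
    funext z
    rw [Finset.mul_sum]
    exact Finset.sum_congr rfl fun j _ => by ring
  rw [h3, integral_finset_sum _ fun j _ => (h2 j).const_mul (κ j)]
  exact Finset.sum_congr rfl fun j _ => integral_const_mul _ _

/-- One term of the expansion of the first form is not zero. -/
theorem I4_pick (D : Dat F) {G : Subgroup (SG D)} {χ : ℂ × ℂ → ℝ} (hχ : IsWeight D G χ) {r : ℕ}
    (κ : Fin r → ℂ) (q : Fin r → ℂ × ℂ → ℂ × ℂ) {A B C E : ℂ × ℂ → ℂ × ℂ}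
    (hq : ∀ j, ContinuousOn (q j) (Ball D)) (hB : ContinuousOn B (Ball D))
    (hC : ContinuousOn C (Ball D)) (hE : ContinuousOn E (Ball D))
    (hA : ∀ z ∈ Ball D, A z = ∑ j, κ j • q j z) (hne : I4 χ A B C E ≠ 0) :
    ∃ j, I4 χ (q j) B C E ≠ 0 := by
  rw [I4_sum D hχ κ q hq hB hC hE hA] at hne
  obtain ⟨j, -, hj⟩ := Finset.exists_ne_zero_of_sum_ne_zero hne
  exact ⟨j, right_ne_zero_of_mul hj⟩

/-- One term of the full expansion is not zero. -/
theorem I4_pick4 (D : Dat F) {G : Subgroup (SG D)} {χ : ℂ × ℂ → ℝ} (hχ : IsWeight D G χ)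
    (r : Fin 4 → ℕ) (κ : ∀ i, Fin (r i) → ℂ) (q : ∀ i, Fin (r i) → ℂ × ℂ → ℂ × ℂ)
    (A : Fin 4 → ℂ × ℂ → ℂ × ℂ) (hq : ∀ i j, ContinuousOn (q i j) (Ball D))
    (hAc : ∀ i, ContinuousOn (A i) (Ball D))
    (hA : ∀ i, ∀ z ∈ Ball D, A i z = ∑ j, κ i j • q i j z)
    (hne : I4 χ (A 0) (A 1) (A 2) (A 3) ≠ 0) :
    ∃ j : ∀ i, Fin (r i), I4 χ (q 0 (j 0)) (q 1 (j 1)) (q 2 (j 2)) (q 3 (j 3)) ≠ 0 := by
  obtain ⟨j0, h0⟩ := I4_pick D hχ (κ 0) (q 0) (hq 0) (hAc 1) (hAc 2) (hAc 3) (hA 0) hne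
  rw [I4_swap] at h0
  obtain ⟨j1, h1⟩ := I4_pick D hχ (κ 1) (q 1) (hq 1) (hq 0 j0) (hAc 2) (hAc 3) (hA 1)
    (neg_ne_zero.1 h0)
  rw [I4_swap, I4_conj] at h1
  have h1' := (map_ne_zero (starRingEnd ℂ)).1 (neg_ne_zero.1 h1)
  obtain ⟨j2, h2⟩ := I4_pick D hχ (κ 2) (q 2) (hq 2) (hAc 3) (hq 0 j0) (hq 1 j1) (hA 2) h1'
  rw [I4_swap] at h2
  obtain ⟨j3, h3⟩ := I4_pick D hχ (κ 3) (q 3) (hq 3) (hq 2 j2) (hq 0 j0) (hq 1 j1) (hA 3)
    (neg_ne_zero.1 h2)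
  rw [I4_swap, I4_conj] at h3
  have h3' := (map_ne_zero (starRingEnd ℂ)).1 (neg_ne_zero.1 h3)
  refine ⟨fun i => match i with
    | 0 => j0
    | 1 => j1
    | 2 => j2
    | 3 => j3, h3'⟩

end J5
end CMT
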